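import Mathlib

open MeasureTheory Set

namespace Pool.Agent.Results.MP_f54a22_an.TakagiPositive

/-- The distance from `x` to the nearest integer. -/
noncomputable def phi (x : ℝ) : ℝ := Metric.infDist x (Set.range ((↑) : ℤ → ℝ))

/-- The Takagi function `T(x) = ∑_{n ≥ 0} phi(2^n x) / 2^n`. -/
noncomputable def takagi (x : ℝ) : ℝ := ∑' n : ℕ, phi (2 ^ n * x) / 2 ^ n

/-- The level set `L(y) = {x ∈ [0,1] : T(x) = y}`. -/
def levelSet (y : ℝ) : Set ℝ := {x | x ∈ Set.Icc (0 : ℝ) 1 ∧ takagi x = y}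

/-- The set `S_{2n}` of ordinates in the range `[0, 2/3]` whose level set has exactly
`2n` elements. -/
def S2 (n : ℕ) : Set ℝ := {y | y ∈ Set.Icc (0 : ℝ) (2 / 3) ∧ (levelSet y).encard = 2 * n}

lemma phi_nonneg (x : ℝ) : 0 ≤ phi x := Metric.infDist_nonneg

lemma phi_le (x : ℝ) (n : ℤ) : phi x ≤ |x - n| := by
  have := Metric.infDist_le_dist_of_mem (x := x) (s := Set.range ((↑) : ℤ → ℝ)) (y := (n : ℝ)) ⟨n, rfl⟩
  simpa [phi, Real.dist_eq] using this

lemma le_phi (x c : ℝ) (h : ∀ n : ℤ, c ≤ |x - n|) : c ≤ phi x := by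
  unfold phi
  rw [Metric.le_infDist (Set.range_nonempty _)]
  rintro y ⟨n, rfl⟩
  simpa [Real.dist_eq] using h n

lemma phi_le_half (x : ℝ) : phi x ≤ 1 / 2 := by
  refine (phi_le x (round x)).trans ?_
  exact abs_sub_round x

lemma phi_add_int (x : ℝ) (m : ℤ) : phi (x + m) = phi x := by
  apply le_antisymm
  · apply le_phi
    intro n
    have := phi_le (x + m) (n + m)
    push_cast at this
    convert this using 2
    ring
  · apply le_phi
    intro n
    have := phi_le x (n - m)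
    push_cast at this
    convert this using 2
    ring

lemma phi_neg (x : ℝ) : phi (-x) = phi x := by
  apply le_antisymm
  · apply le_phi
    intro n
    have := phi_le (-x) (-n)
    push_cast at this
    convert this using 1
    rw [← abs_neg]; congr 1; ring
  · apply le_phi
    intro n
    have := phi_le x (-n)
    push_cast at this
    convert this using 1
    rw [← abs_neg]; congr 1; ring

lemma phi_of_le_half {x : ℝ} (h0 : 0 ≤ x) (h1 : x ≤ 1 / 2) : phi x = x := by
  apply le_antisymm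
  · have := phi_le x 0
    simpa [abs_of_nonneg h0] using this
  · apply le_phi
    intro n
    rcases le_or_gt n 0 with hn | hn
    · have : (n : ℝ) ≤ 0 := by exact_mod_cast hn
      rw [abs_of_nonneg (by linarith)]; linarith
    · have : (1 : ℝ) ≤ n := by exact_mod_cast hn
      rw [abs_of_nonpos (by linarith)]; linarith

lemma phi_of_half_le {x : ℝ} (h0 : 1 / 2 ≤ x) (h1 : x ≤ 1) : phi x = 1 - x := by
  have h := phi_of_le_half (x := 1 - x) (by linarith) (by linarith)
  have h2 : phi (1 - x) = phi x := by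
    have := phi_add_int (-x) 1
    rw [phi_neg] at this
    rw [← this]; congr 1; push_cast; ring
  rw [← h2, h]

lemma continuous_phi : Continuous phi := Metric.continuous_infDist_pt _

lemma summable_takagi (x : ℝ) : Summable (fun n : ℕ => phi (2 ^ n * x) / 2 ^ n) := by
  refine Summable.of_nonneg_of_le (fun n => div_nonneg (phi_nonneg _) (by positivity))
    (fun n => ?_) (summable_geometric_two.mul_left (1 / 2 : ℝ))
  rw [div_eq_mul_inv, one_div, inv_pow]
  have := phi_le_half (2 ^ n * x)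
  have h2 : (0 : ℝ) ≤ (2 ^ n)⁻¹ := by positivity
  nlinarith

lemma takagi_nonneg (x : ℝ) : 0 ≤ takagi x :=
  tsum_nonneg fun n => div_nonneg (phi_nonneg _) (by positivity)

lemma takagi_eq (x : ℝ) : takagi x = phi x + takagi (2 * x) / 2 := by
  unfold takagi
  rw [(summable_takagi x).tsum_eq_zero_add]
  have : ∀ n : ℕ, phi (2 ^ (n + 1) * x) / 2 ^ (n + 1) = phi (2 ^ n * (2 * x)) / 2 ^ n / 2 := by
    intro n
    rw [pow_succ, mul_assoc, div_div]
  simp_rw [this]
  rw [tsum_div_const]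
  simp

lemma takagi_add_int (x : ℝ) (m : ℤ) : takagi (x + m) = takagi x := by
  unfold takagi
  congr 1
  ext n
  have : (2 : ℝ) ^ n * (x + m) = 2 ^ n * x + ((2 ^ n * m : ℤ) : ℝ) := by push_cast; ring
  rw [this, phi_add_int]

lemma takagi_neg (x : ℝ) : takagi (-x) = takagi x := by
  unfold takagi
  congr 1
  ext n
  rw [mul_neg, phi_neg]

lemma takagi_one_sub (x : ℝ) : takagi (1 - x) = takagi x := by
  have := takagi_add_int (-x) 1
  rw [takagi_neg] at this
  rw [← this]; congr 1; push_cast; ring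

lemma takagi_zero : takagi 0 = 0 := by
  unfold takagi
  have : phi 0 = 0 := phi_of_le_half le_rfl (by norm_num)
  simp [this]

lemma takagi_one : takagi 1 = 0 := by
  have := takagi_one_sub 0
  simpa [takagi_zero] using this

lemma continuous_takagi : Continuous takagi := by
  unfold takagi
  refine continuous_tsum (u := fun n : ℕ => (1 / 2 : ℝ) * (1 / 2) ^ n) (fun n => ?_)
    (summable_geometric_two.mul_left (1 / 2 : ℝ)) (fun n x => ?_)
  · exact (continuous_phi.comp (by fun_prop)).div_const _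
  · rw [Real.norm_of_nonneg (div_nonneg (phi_nonneg _) (by positivity))]
    rw [div_eq_mul_inv, one_div, inv_pow]
    have := phi_le_half (2 ^ n * x)
    have h2 : (0 : ℝ) ≤ (2 ^ n)⁻¹ := by positivity
    nlinarith

lemma takagi_le_one (x : ℝ) : takagi x ≤ 1 := by
  unfold takagi
  have h : (∑' n : ℕ, phi (2 ^ n * x) / 2 ^ n) ≤ ∑' n : ℕ, (1 / 2 : ℝ) * (1 / 2) ^ n := by
    refine (summable_takagi x).tsum_le_tsum (fun n => ?_) (summable_geometric_two.mul_left (1 / 2 : ℝ))
    rw [div_eq_mul_inv, one_div, inv_pow]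
    have := phi_le_half (2 ^ n * x)
    have h2 : (0 : ℝ) ≤ (2 ^ n)⁻¹ := by positivity
    nlinarith
  rw [tsum_mul_left, tsum_geometric_two] at h
  linarith

/-- `phi x + phi (2x)/2 ≤ 1/2`. -/
lemma phi_two (x : ℝ) : phi x + phi (2 * x) / 2 ≤ 1 / 2 := by
  -- reduce to the distance to the nearest integer
  have key : ∀ r : ℝ, 0 ≤ r → r ≤ 1 / 2 → phi r + phi (2 * r) / 2 ≤ 1 / 2 := by
    intro r h0 h1
    rw [phi_of_le_half h0 h1]
    rcases le_total r (1 / 4) with h | h
    · rw [phi_of_le_half (by linarith) (by linarith)]; linarith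
    · rw [phi_of_half_le (by linarith) (by linarith)]; linarith
  have hx : phi x + phi (2 * x) / 2 = phi |x - round x| + phi (2 * |x - round x|) / 2 := by
    have h1 : phi (x - round x) = phi x := by
      have := phi_add_int x (-round x)
      rw [← this]; congr 1; push_cast; ring
    have h2 : phi (2 * (x - round x)) = phi (2 * x) := by
      have := phi_add_int (2 * x) (-(2 * round x))
      rw [← this]; congr 1; push_cast; ring
    rcases abs_cases (x - round x) with ⟨h, _⟩ | ⟨h, _⟩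
    · rw [h, h1, h2]
    · rw [h, phi_neg, h1]
      rw [show 2 * -(x - (round x : ℝ)) = -(2 * (x - round x)) by ring, phi_neg, h2]
  rw [hx]
  exact key _ (abs_nonneg _) (abs_sub_round x)

lemma takagi_le (x : ℝ) : takagi x ≤ 2 / 3 := by
  have key : ∀ n : ℕ, ∀ x : ℝ, takagi x ≤ 2 / 3 + (1 / 4) ^ n := by
    intro n
    induction n with
    | zero => intro x; have := takagi_le_one x; norm_num; linarith
    | succ n ih =>
      intro x
      have h1 := takagi_eq x
      have h2 := takagi_eq (2 * x)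
      have h3 := ih (2 * (2 * x))
      have h4 := phi_two x
      rw [pow_succ]
      linarith
  have hlim : Filter.Tendsto (fun n : ℕ => 2 / 3 + (1 / 4 : ℝ) ^ n) Filter.atTop (nhds (2 / 3 + 0)) :=
    tendsto_const_nhds.add (tendsto_pow_atTop_nhds_zero_of_lt_one (by norm_num) (by norm_num))
  rw [add_zero] at hlim
  exact ge_of_tendsto' hlim (fun n => key n x)

/-! ### The counting functions -/

/-- The solution set of `T(x) + s x = v` in `[0,1)`. -/
def solSet (s v : ℝ) : Set ℝ := {x | x ∈ Ico (0 : ℝ) 1 ∧ takagi x + s * x = v}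

/-- The number of solutions of `T(x) + s x = v` in `[0,1)`. -/
noncomputable def cnt (s v : ℝ) : ℕ∞ := (solSet s v).encard

lemma takagi_left {u : ℝ} (h0 : 0 ≤ u) (h1 : u ≤ 1) :
    takagi (u / 2) = u / 2 + takagi u / 2 := by
  rw [takagi_eq, phi_of_le_half (by linarith) (by linarith)]
  congr 3; ring

lemma takagi_right {u : ℝ} (h0 : 0 ≤ u) (h1 : u ≤ 1) :
    takagi ((1 + u) / 2) = (1 - u) / 2 + takagi u / 2 := by
  rw [takagi_eq, phi_of_half_le (by linarith) (by linarith)]
  have h : takagi (2 * ((1 + u) / 2)) = takagi u := by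
    rw [← takagi_add_int u 1]; congr 1; push_cast; ring
  rw [h]; ring

lemma solSet_eq (s v : ℝ) : solSet s v =
    (fun u => u / 2) '' solSet (s + 1) (2 * v) ∪
      (fun u => (1 + u) / 2) '' solSet (s - 1) (2 * v - 1 - s) := by
  ext x
  constructor
  · rintro ⟨⟨h0, h1⟩, hx⟩
    rcases lt_or_ge x (1 / 2) with h | h
    · left
      refine ⟨2 * x, ⟨⟨by linarith, by linarith⟩, ?_⟩, by ring⟩
      have := takagi_left (u := 2 * x) (by linarith) (by linarith)
      rw [show 2 * x / 2 = x by ring] at this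
      linarith
    · right
      refine ⟨2 * x - 1, ⟨⟨by linarith, by linarith⟩, ?_⟩, by ring⟩
      have := takagi_right (u := 2 * x - 1) (by linarith) (by linarith)
      rw [show (1 + (2 * x - 1)) / 2 = x by ring] at this
      linarith
  · rintro (⟨u, ⟨⟨h0, h1⟩, hu⟩, rfl⟩ | ⟨u, ⟨⟨h0, h1⟩, hu⟩, rfl⟩)
    · refine ⟨⟨by dsimp only; linarith, by dsimp only; linarith⟩, ?_⟩
      dsimp only
      rw [takagi_left h0 h1.le]
      linarith
    · refine ⟨⟨by dsimp only; linarith, by dsimp only; linarith⟩, ?_⟩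
      dsimp only
      rw [takagi_right h0 h1.le]
      linarith

lemma cnt_rec (s v : ℝ) : cnt s v = cnt (s + 1) (2 * v) + cnt (s - 1) (2 * v - 1 - s) := by
  unfold cnt
  rw [solSet_eq s v, encard_union_eq]
  · rw [Function.Injective.encard_image, Function.Injective.encard_image]
    · intro a b h; dsimp only at h; linarith
    · intro a b h; dsimp only at h; linarith
  · rw [Set.disjoint_left]
    rintro x ⟨u, ⟨⟨h0, h1⟩, hu⟩, rfl⟩ ⟨w, ⟨⟨h0', h1'⟩, hw⟩, h⟩
    dsimp only at h
    linarith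

lemma cnt_neg {s v : ℝ} (hs : 0 ≤ s) (hv : v < 0) : cnt s v = 0 := by
  unfold cnt
  rw [encard_eq_zero, Set.eq_empty_iff_forall_notMem]
  rintro x ⟨⟨h0, h1⟩, hx⟩
  have := takagi_nonneg x
  have := mul_nonneg hs h0
  linarith

lemma cnt_gt {s v : ℝ} (hs : 0 ≤ s) (hv : s + 2 / 3 < v) : cnt s v = 0 := by
  unfold cnt
  rw [encard_eq_zero, Set.eq_empty_iff_forall_notMem]
  rintro x ⟨⟨h0, h1⟩, hx⟩
  have := takagi_le x
  have : s * x ≤ s := by nlinarith
  linarith

/-- Upper bound for `T(x) + k x`. -/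
lemma tilt_le (k : ℕ) (hk : 1 ≤ k) : ∀ x : ℝ, 0 ≤ x → x < 1 →
    takagi x + k * x ≤ k + 2 / 3 * (1 / 2) ^ k := by
  induction k, hk using Nat.le_induction with
  | base =>
    intro x h0 h1
    rcases lt_or_ge x (1 / 2) with h | h
    · have := takagi_le x
      norm_num; linarith
    · have h2 := takagi_right (u := 2 * x - 1) (by linarith) (by linarith)
      rw [show (1 + (2 * x - 1)) / 2 = x by ring] at h2
      have := takagi_le (2 * x - 1)
      norm_num; linarith
  | succ k hk ih =>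
    intro x h0 h1
    have hk' : (1 : ℝ) ≤ k := by exact_mod_cast hk
    have hp : (0 : ℝ) < (1 / 2) ^ k := by positivity
    rcases lt_or_ge x (1 / 2) with h | h
    · have := takagi_le x
      have h3 : ((k + 1 : ℕ) : ℝ) * x ≤ (k + 1) / 2 := by push_cast; nlinarith
      have h4 : (0 : ℝ) < (1 / 2) ^ (k + 1) := by positivity
      push_cast at h3 ⊢
      linarith
    · have h2 := takagi_right (u := 2 * x - 1) (by linarith) (by linarith)
      rw [show (1 + (2 * x - 1)) / 2 = x by ring] at h2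
      have h3 := ih (2 * x - 1) (by linarith) (by linarith)
      rw [pow_succ]
      push_cast
      linarith

lemma cnt_above {k : ℕ} (hk : 1 ≤ k) {v : ℝ} (hv : k + 2 / 3 * (1 / 2) ^ k < v) :
    cnt k v = 0 := by
  unfold cnt
  rw [encard_eq_zero, Set.eq_empty_iff_forall_notMem]
  rintro x ⟨⟨h0, h1⟩, hx⟩
  have := tilt_le k hk x h0 h1
  linarith

/-- The reflection symmetry. -/
lemma cnt_reflect {w : ℝ} (h0 : w ≠ 0) (h1 : w ≠ -1) : cnt (-1) w = cnt 1 (w + 1) := by
  unfold cnt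
  have : solSet (-1) w = (fun x => 1 - x) '' solSet 1 (w + 1) := by
    ext x
    constructor
    · rintro ⟨⟨hx0, hx1⟩, hx⟩
      refine ⟨1 - x, ⟨⟨by linarith, ?_⟩, ?_⟩, by ring⟩
      · rcases hx0.lt_or_eq with h | h
        · linarith
        · exfalso; apply h0; rw [← hx, ← h, takagi_zero]; ring
      · rw [takagi_one_sub]; linarith
    · rintro ⟨u, ⟨⟨hu0, hu1⟩, hu⟩, rfl⟩
      refine ⟨⟨by dsimp only; linarith, ?_⟩, ?_⟩
      · dsimp only
        rcases hu0.lt_or_eq with h | h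
        · linarith
        · exfalso; apply h1; rw [← h, takagi_zero] at hu; linarith
      · dsimp only
        rw [takagi_one_sub]; linarith
  rw [this, Function.Injective.encard_image]
  intro a b h; dsimp only at h; linarith

lemma cnt_zero_eq {y : ℝ} (h0 : y ≠ 0) (h1 : y ≠ 1 / 2) : cnt 0 y = 2 * cnt 1 (2 * y) := by
  rw [cnt_rec]
  rw [show (0 : ℝ) - 1 = -1 by ring, show (0 : ℝ) + 1 = 1 by ring]
  rw [cnt_reflect]
  · rw [show 2 * y - 1 - 0 + 1 = 2 * y by ring, two_mul (cnt 1 (2 * y))]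
  · intro h; apply h1; linarith
  · intro h; apply h0; linarith

lemma levelSet_encard {y : ℝ} (hy : 0 < y) : (levelSet y).encard = cnt 0 y := by
  unfold cnt
  congr 1
  ext x
  constructor
  · rintro ⟨⟨h0, h1⟩, hx⟩
    refine ⟨⟨h0, ?_⟩, by simpa using hx⟩
    rcases h1.lt_or_eq with h | h
    · exact h
    · exfalso; rw [h, takagi_one] at hx; linarith
  · rintro ⟨⟨h0, h1⟩, hx⟩
    exact ⟨⟨h0, h1.le⟩, by simpa using hx⟩

/-! ### The function `F` -/

/-- `F z` counts the solutions of `T(x) + x = 1 + z/2`. -/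
noncomputable def F (z : ℝ) : ℕ∞ := cnt 1 (1 + z / 2)

lemma F_rec {z : ℝ} (hz : 0 ≤ z) : F z = cnt 0 z + F (4 * z) := by
  unfold F
  rw [cnt_rec]
  rw [show (1 : ℝ) + 1 = 2 by norm_num, show (1 : ℝ) - 1 = 0 by norm_num,
    show 2 * (1 + z / 2) - 1 - 1 = z by ring]
  rw [cnt_rec 2]
  rw [cnt_gt (s := 2 + 1) (by norm_num) (by linarith)]
  rw [show (2 : ℝ) - 1 = 1 by norm_num,
    show 2 * (2 * (1 + z / 2)) - 1 - 2 = 1 + 4 * z / 2 by ring]
  rw [zero_add, add_comm]

lemma F_eq_zero {z : ℝ} (hz : 2 / 3 < z) : F z = 0 := by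
  rw [F_rec (by linarith)]
  rw [cnt_gt (s := 0) le_rfl (by linarith)]
  unfold F
  rw [cnt_gt (s := 1) (by norm_num) (by linarith)]
  simp

lemma F_eq_cnt {z : ℝ} (hz : 1 / 6 < z) : F z = cnt 0 z := by
  rw [F_rec (by linarith), F_eq_zero (z := 4 * z) (by linarith), add_zero]

lemma cnt_top {k : ℕ} (hk : 1 ≤ k) : ∀ u : ℝ, 0 ≤ u → cnt k (k + u) = F (2 ^ k * u) := by
  induction k, hk using Nat.le_induction with
  | base =>
    intro u hu
    unfold F
    rw [Nat.cast_one]
    congr 1; ring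
  | succ k hk ih =>
    intro u hu
    have hk' : (1 : ℝ) ≤ k := by exact_mod_cast hk
    rw [cnt_rec]
    rw [cnt_gt (s := ((k + 1 : ℕ) : ℝ) + 1) (by positivity) (by push_cast; linarith)]
    rw [zero_add]
    rw [show ((k + 1 : ℕ) : ℝ) - 1 = k by push_cast; ring,
      show 2 * (((k + 1 : ℕ) : ℝ) + u) - 1 - ((k + 1 : ℕ) : ℝ) = k + 2 * u by push_cast; ring]
    rw [ih (2 * u) (by linarith)]
    congr 1; ring

lemma cnt_up {s : ℝ} (hs : 1 ≤ s) (j : ℕ) : ∀ v : ℝ, 2 ^ j * v < 1 →
    cnt s v = cnt (s + j) (2 ^ j * v) := by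
  induction j with
  | zero => intro v _; simp
  | succ j ih =>
    intro v hv
    have hv' : 2 ^ j * v < 1 := by
      rcases le_or_gt 0 v with h | h
      · have : (2 : ℝ) ^ j * v ≤ 2 ^ (j + 1) * v := by
          rw [pow_succ]
          have : (0 : ℝ) ≤ 2 ^ j * v := by positivity
          linarith
        linarith
      · have : (2 : ℝ) ^ j * v < 0 := mul_neg_of_pos_of_neg (by positivity) h
        linarith
    rw [ih v hv', cnt_rec]
    have hj : (0 : ℝ) ≤ j := by positivity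
    rw [cnt_neg (s := s + j - 1) (by linarith)]
    · rw [add_zero]
      congr 1
      · push_cast; ring
      · rw [pow_succ]; ring
    · rw [pow_succ] at hv
      linarith

/-! ### Climbing -/

lemma climb {s u : ℝ} (hs : 1 ≤ s) (hu' : u < s + 2) :
    cnt s ((s + 4 + u) / 16) = cnt (s + 4) (s + 4 + u) + cnt (s + 2) u := by
  rw [cnt_rec s, cnt_neg (s := s - 1) (by linarith) (by linarith), add_zero]
  rw [cnt_rec (s + 1), cnt_neg (s := s + 1 - 1) (by linarith) (by linarith), add_zero]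
  rw [cnt_rec (s + 1 + 1), cnt_neg (s := s + 1 + 1 - 1) (by linarith) (by linarith), add_zero]
  rw [cnt_rec (s + 1 + 1 + 1)]
  congr 2 <;> ring

lemma climb_zero {u : ℝ} (_hu : 0 ≤ u) (hu' : u < 2) :
    cnt 0 ((4 + u) / 16) = 2 * (cnt 4 (4 + u) + cnt 2 u) := by
  rw [cnt_zero_eq (by intro h; linarith) (by intro h; linarith)]
  rw [cnt_rec 1, cnt_neg (s := 1 - 1) (by norm_num) (by linarith), add_zero]
  rw [cnt_rec (1 + 1), cnt_neg (s := 1 + 1 - 1) (by norm_num) (by linarith), add_zero]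
  rw [cnt_rec (1 + 1 + 1)]
  congr 2
  · congr 1 <;> ring
  · congr 1 <;> ring

/-- For every `k ≥ 1` there is a position at which the level sets are described by the
counting function with tilt `2k`. -/
lemma exists_position (k : ℕ) (hk : 1 ≤ k) : ∃ b : ℝ, 1 / 4 ≤ b ∧
    b + (1 / 16) ^ k * (2 * k) ≤ 3 / 8 ∧ ∀ u : ℝ, 0 ≤ u → u < 2 * k →
      cnt 0 ((1 / 16) ^ k * u + b) =
        2 * (cnt (2 * k + 2) (2 * k + 2 + u) + cnt (2 * k) u) := by
  induction k, hk using Nat.le_induction with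
  | base =>
    refine ⟨1 / 4, le_rfl, by norm_num, fun u h0 h1 => ?_⟩
    rw [show ((1 : ℝ) / 16) ^ 1 * u + 1 / 4 = (4 + u) / 16 by ring, climb_zero h0 (by simpa using h1)]
    norm_num
  | succ k hk ih =>
    obtain ⟨b, hb1, hb2, hb⟩ := ih
    have hk' : (1 : ℝ) ≤ k := by exact_mod_cast hk
    have hp : (0 : ℝ) < (1 / 16) ^ k := by positivity
    refine ⟨b + (1 / 16) ^ k * ((2 * k + 4) / 16), ?_, ?_, fun u h0 h1 => ?_⟩
    · have : 0 < (1 / 16 : ℝ) ^ k * ((2 * k + 4) / 16) := by positivity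
      linarith
    · rw [pow_succ]
      push_cast
      have : (1 / 16 : ℝ) ^ k * ((2 * k + 4) / 16) + (1 / 16) ^ k * (1 / 16) * (2 * (k + 1)) ≤
          (1 / 16) ^ k * (2 * k) := by
        have h1 : (1 / 16 : ℝ) ^ k * ((2 * k + 4) / 16) + (1 / 16) ^ k * (1 / 16) * (2 * (k + 1)) =
          (1 / 16) ^ k * ((4 * k + 6) / 16) := by ring
        rw [h1]
        apply mul_le_mul_of_nonneg_left _ hp.le
        linarith
      linarith
    · push_cast at h1 ⊢
      have e : (1 / 16 : ℝ) ^ (k + 1) * u + (b + (1 / 16) ^ k * ((2 * k + 4) / 16)) =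
          (1 / 16) ^ k * ((2 * k + 4 + u) / 16) + b := by
        rw [pow_succ]; ring
      rw [e, hb _ (by positivity) (by linarith)]
      rw [climb (s := 2 * k) (by linarith) (by linarith)]
      have h2 : cnt (2 * (k : ℝ) + 2) (2 * k + 2 + (2 * k + 4 + u) / 16) = 0 := by
        have := cnt_above (k := 2 * k + 2) (by omega)
          (v := 2 * k + 2 + (2 * k + 4 + u) / 16) (by
            have h3 : (1 / 2 : ℝ) ^ (2 * k + 2) ≤ (1 / 2) ^ 2 :=
              pow_le_pow_of_le_one (by norm_num) (by norm_num) (by omega)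
            push_cast
            norm_num at h3 ⊢
            linarith)
        push_cast at this
        exact this
      rw [h2, zero_add]
      congr 2
      · congr 1 <;> ring
      · congr 1; ring

/-! ### The exceptional set -/

/-- Levels at which `T(x) + s x` takes the same value at two points whose first `m` binary
digits are not all equal. -/
def Bad (s : ℝ) (m : ℕ) : Set ℝ := {v | ∃ x₁ ∈ Ico (0 : ℝ) 1, ∃ x₂ ∈ Ico (0 : ℝ) 1,
  takagi x₁ + s * x₁ = v ∧ takagi x₂ + s * x₂ = v ∧ ∃ j ≤ m, ⌊2 ^ j * x₁⌋ ≠ ⌊2 ^ j * x₂⌋}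

lemma Bad_mono (s : ℝ) : Monotone (Bad s) := by
  intro m n hmn v ⟨x₁, h₁, x₂, h₂, h3, h4, j, hj, h5⟩
  exact ⟨x₁, h₁, x₂, h₂, h3, h4, j, hj.trans hmn, h5⟩

lemma Bad_zero (s : ℝ) : Bad s 0 = ∅ := by
  rw [Set.eq_empty_iff_forall_notMem]
  rintro v ⟨x₁, h₁, x₂, h₂, h3, h4, j, hj, h5⟩
  obtain rfl : j = 0 := by omega
  apply h5
  rw [pow_zero, one_mul, one_mul, Int.floor_eq_zero_iff.2 h₁, Int.floor_eq_zero_iff.2 h₂]

lemma Bad_succ {k m : ℕ} (hk : 1 ≤ k) {v : ℝ} (hv : v ∈ Bad k (m + 1)) :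
    (2 * v ∈ Bad (k + 1) m) ∨ (2 * v - (k + 1) ∈ Bad (k - 1) m ∧ (k + 1) / 2 ≤ v) ∨
      (v ∈ Icc (((k : ℝ) + 1) / 2) ((k + 1) / 2 + 1 / 3 * (1 / 2) ^ (k + 1))) := by
  obtain ⟨x₁, ⟨h10, h11⟩, x₂, ⟨h20, h21⟩, e1, e2, j, hj, hne⟩ := hv
  have hk' : (1 : ℝ) ≤ k := by exact_mod_cast hk
  rcases Nat.eq_zero_or_pos j with rfl | hjpos
  · exfalso
    apply hne
    rw [pow_zero, one_mul, one_mul, Int.floor_eq_zero_iff.2 ⟨h10, h11⟩,
      Int.floor_eq_zero_iff.2 ⟨h20, h21⟩]
  obtain ⟨i, rfl⟩ : ∃ i, j = i + 1 := ⟨j - 1, by omega⟩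
  -- the values on the two halves
  have L : ∀ x : ℝ, 0 ≤ x → x < 1 / 2 → takagi x + k * x = v →
      takagi (2 * x) + (k + 1) * (2 * x) = 2 * v := by
    intro x h0 h1 he
    have := takagi_left (u := 2 * x) (by linarith) (by linarith)
    rw [show 2 * x / 2 = x by ring] at this
    linarith
  have R : ∀ x : ℝ, 1 / 2 ≤ x → x < 1 → takagi x + k * x = v →
      takagi (2 * x - 1) + (k - 1) * (2 * x - 1) = 2 * v - (k + 1) := by
    intro x h0 h1 he
    have := takagi_right (u := 2 * x - 1) (by linarith) (by linarith)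
    rw [show (1 + (2 * x - 1)) / 2 = x by ring] at this
    linarith
  have Rlow : ∀ x : ℝ, 1 / 2 ≤ x → x < 1 → takagi x + k * x = v → (k + 1) / 2 ≤ v := by
    intro x h0 h1 he
    have h2 := R x h0 h1 he
    have h3 := takagi_nonneg (2 * x - 1)
    have h4 : 0 ≤ ((k : ℝ) - 1) * (2 * x - 1) := mul_nonneg (by linarith) (by linarith)
    linarith
  have Lup : ∀ x : ℝ, 0 ≤ x → x < 1 / 2 → takagi x + k * x = v →
      v ≤ (k + 1) / 2 + 1 / 3 * (1 / 2) ^ (k + 1) := by
    intro x h0 h1 he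
    have h2 := L x h0 h1 he
    have h3 := tilt_le (k + 1) (by omega) (2 * x) (by linarith) (by linarith)
    push_cast at h3
    linarith
  rcases lt_or_ge x₁ (1 / 2) with a1 | a1 <;> rcases lt_or_ge x₂ (1 / 2) with a2 | a2
  · left
    refine ⟨2 * x₁, ⟨by linarith, by linarith⟩, 2 * x₂, ⟨by linarith, by linarith⟩,
      L _ h10 a1 e1, L _ h20 a2 e2, i, by omega, ?_⟩
    rw [← mul_assoc, ← mul_assoc, ← pow_succ]
    exact hne
  · right; right
    exact ⟨Rlow _ a2 h21 e2, Lup _ h10 a1 e1⟩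
  · right; right
    exact ⟨Rlow _ a1 h11 e1, Lup _ h20 a2 e2⟩
  · right; left
    refine ⟨⟨2 * x₁ - 1, ⟨by linarith, by linarith⟩, 2 * x₂ - 1, ⟨by linarith, by linarith⟩,
      R _ a1 h11 e1, R _ a2 h21 e2, i, by omega, ?_⟩, Rlow _ a1 h11 e1⟩
    have e : ∀ x : ℝ, ⌊2 ^ i * (2 * x - 1)⌋ = ⌊2 ^ (i + 1) * x⌋ - 2 ^ i := by
      intro x
      rw [show (2 : ℝ) ^ i * (2 * x - 1) = 2 ^ (i + 1) * x - ((2 ^ i : ℤ) : ℝ) by push_cast; ring]
      rw [Int.floor_sub_intCast]
    rw [e, e]
    intro h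
    apply hne
    linarith

/-- Measure of a preimage under an affine map. -/
lemma vol_preimage (a b : ℝ) (ha : 0 < a) (S : Set ℝ) :
    volume ((fun x => a * x + b) ⁻¹' S) = ENNReal.ofReal a⁻¹ * volume S := by
  have h1 : (fun x : ℝ => a * x + b) ⁻¹' S = (fun x => a * x) ⁻¹' ((fun x => x + b) ⁻¹' S) := rfl
  rw [h1, Real.volume_preimage_mul_left ha.ne', measure_preimage_add_right, abs_of_pos (by positivity)]

lemma pos_of_affine (a b : ℝ) (ha : 0 < a) {A S : Set ℝ} (h : ∀ x ∈ A, a * x + b ∈ S)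
    (hA : 0 < volume A) : 0 < volume S := by
  have h1 : volume A ≤ ENNReal.ofReal a⁻¹ * volume S := by
    rw [← vol_preimage a b ha S]
    exact measure_mono h
  by_contra h2
  have h3 : volume S = 0 := by simpa using h2
  rw [h3, mul_zero] at h1
  exact absurd (lt_of_lt_of_le hA h1) (lt_irrefl _)

/-- The bound used in the induction below. -/
noncomputable def bd (k : ℕ) (c : ℝ) : ℝ := c * ((1 - (1 / 2) ^ k) / k)

lemma two_pow_bound (k : ℕ) : ((k : ℝ) + 1) * (1 / 2) ^ k ≤ 1 := by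
  have h : k < 2 ^ k := Nat.lt_two_pow_self
  have h2 : ((k : ℝ) + 1) ≤ 2 ^ k := by exact_mod_cast h
  rw [one_div, inv_pow]
  rw [← div_eq_mul_inv, div_le_one (by positivity)]
  exact h2

lemma bad_bound (m : ℕ) : ∀ k : ℕ, 1 ≤ k → ∀ c : ℝ, 0 ≤ c → c ≤ k →
    volume (Bad k m ∩ Ioo 0 c) ≤ ENNReal.ofReal (bd k c) := by
  induction m with
  | zero =>
    intro k _ c _ _
    rw [Bad_zero]; simp
  | succ m ih =>
    intro k hk c hc0 hck
    have hk' : (1 : ℝ) ≤ k := by exact_mod_cast hk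
    have hq := two_pow_bound k
    have hqp : (0 : ℝ) < (1 / 2) ^ k := by positivity
    have hq1 : ((1 : ℝ) / 2) ^ k ≤ 1 / 2 := by
      calc ((1 : ℝ) / 2) ^ k ≤ (1 / 2) ^ 1 :=
            pow_le_pow_of_le_one (by norm_num) (by norm_num) hk
        _ = 1 / 2 := pow_one _
    rcases le_or_gt c ((k + 1) / 2) with hc | hc
    · have hsub : Bad k (m + 1) ∩ Ioo 0 c ⊆
          (fun x => 2 * x + 0) ⁻¹' (Bad ((k + 1 : ℕ) : ℝ) m ∩ Ioo 0 (2 * c)) := by
        rintro v ⟨hv, hv0, hvc⟩
        rcases Bad_succ hk hv with h | ⟨_, h⟩ | ⟨h, _⟩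
        · refine ⟨?_, by constructor <;> dsimp only <;> linarith⟩
          push_cast
          simpa using h
        · exfalso; linarith
        · exfalso; linarith
      refine (measure_mono hsub).trans ?_
      rw [vol_preimage 2 0 (by norm_num)]
      refine (mul_le_mul_right (ih (k + 1) (by omega) (2 * c) (by linarith)
        (by push_cast; linarith)) _).trans ?_
      rw [← ENNReal.ofReal_mul (by norm_num)]
      apply ENNReal.ofReal_le_ofReal
      unfold bd
      have h1 : (2 : ℝ)⁻¹ * (2 * c * ((1 - (1 / 2) ^ (k + 1)) / ((k + 1 : ℕ) : ℝ))) =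
          c * ((1 - (1 / 2) ^ (k + 1)) / ((k + 1 : ℕ) : ℝ)) := by ring
      rw [h1]
      apply mul_le_mul_of_nonneg_left _ hc0
      rw [div_le_div_iff₀ (by positivity) (by positivity), pow_succ]
      push_cast
      nlinarith
    · have hk2 : 2 ≤ k := by
        rcases Nat.lt_or_ge k 2 with h | h
        · exfalso
          have : k = 1 := by omega
          subst this
          norm_num at hc hck
          linarith
        · exact h
      obtain ⟨l, rfl⟩ : ∃ l, k = l + 1 := ⟨k - 1, by omega⟩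
      have hl : 1 ≤ l := by omega
      have hl' : (1 : ℝ) ≤ l := by exact_mod_cast hl
      push_cast at hc hck
      have hsub : Bad ((l + 1 : ℕ) : ℝ) (m + 1) ∩ Ioo 0 c ⊆
          ((fun x => 2 * x + 0) ⁻¹' (Bad ((l + 1 + 1 : ℕ) : ℝ) m ∩ Ioo 0 ((l + 1 + 1 : ℕ) : ℝ)) ∪
          (fun x => 2 * x + -((l : ℝ) + 2)) ⁻¹' (Bad (l : ℝ) m ∩ Ioo 0 (2 * c - (l + 2)))) ∪
          Icc (((l : ℝ) + 2) / 2) ((l + 2) / 2 + 1 / 3 * (1 / 2) ^ (l + 2)) := by
        rintro v ⟨hv, hv0, hvc⟩
        rcases Bad_succ hk hv with h | ⟨h, h'⟩ | h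
        · push_cast at h
          rcases lt_or_ge (2 * v) ((l + 1 + 1 : ℕ) : ℝ) with h2 | h2
          · left; left
            refine ⟨?_, ?_⟩
            · push_cast
              simpa using h
            · exact ⟨by dsimp only; linarith, by dsimp only; linarith⟩
          · right
            obtain ⟨x₁, ⟨h10, h11⟩, x₂, -, e1, -⟩ := h
            have h3 := tilt_le (l + 1 + 1) (by omega) x₁ h10 h11
            push_cast at h2 h3
            constructor
            · linarith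
            · rw [e1] at h3
              rw [show l + 2 = l + 1 + 1 by ring]
              linarith
        · push_cast at h h'
          rcases lt_or_ge ((l + 1 + 1 : ℝ) / 2) v with h2 | h2
          · left; right
            refine ⟨?_, ?_⟩
            · have e : 2 * v + -((l : ℝ) + 2) = 2 * v - (l + 1 + 1) := by ring
              change 2 * v + -((l : ℝ) + 2) ∈ Bad (l : ℝ) m
              rw [e]
              simpa using h
            · exact ⟨by dsimp only; linarith, by dsimp only; linarith⟩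
          · right
            constructor
            · linarith
            · have : (0 : ℝ) < 1 / 3 * (1 / 2) ^ (l + 2) := by positivity
              linarith
        · right
          push_cast at h
          obtain ⟨h1, h2⟩ := h
          constructor
          · linarith
          · rw [show l + 2 = l + 1 + 1 by ring]
            linarith
      refine (measure_mono hsub).trans ?_
      refine (measure_union_le _ _).trans ?_
      refine (add_le_add_left (measure_union_le _ _) _).trans ?_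
      rw [vol_preimage 2 0 (by norm_num), vol_preimage 2 _ (by norm_num), Real.volume_Icc]
      have i1 := ih (l + 1 + 1) (by omega) ((l + 1 + 1 : ℕ) : ℝ) (by positivity) le_rfl
      have i2 := ih l hl (2 * c - (l + 2)) (by linarith) (by linarith)
      refine (add_le_add_left (add_le_add (mul_le_mul_right i1 _) (mul_le_mul_right i2 _)) _).trans ?_
      rw [← ENNReal.ofReal_mul (by norm_num), ← ENNReal.ofReal_mul (by norm_num)]
      have n1 : 0 ≤ (2 : ℝ)⁻¹ * bd (l + 1 + 1) ((l + 1 + 1 : ℕ) : ℝ) := by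
        unfold bd
        have : ((1 : ℝ) / 2) ^ (l + 1 + 1) ≤ 1 := pow_le_one₀ (by norm_num) (by norm_num)
        have : (0 : ℝ) ≤ 1 - (1 / 2) ^ (l + 1 + 1) := by linarith
        positivity
      have n2 : 0 ≤ (2 : ℝ)⁻¹ * bd l (2 * c - (l + 2)) := by
        unfold bd
        have : ((1 : ℝ) / 2) ^ l ≤ 1 := pow_le_one₀ (by norm_num) (by norm_num)
        have h3 : (0 : ℝ) ≤ 1 - (1 / 2) ^ l := by linarith
        have h4 : (0 : ℝ) ≤ 2 * c - (l + 2) := by linarith
        positivity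
      rw [← ENNReal.ofReal_add n1 n2, ← ENNReal.ofReal_add (by positivity)
        (by rw [add_sub_cancel_left]; positivity)]
      apply ENNReal.ofReal_le_ofReal
      unfold bd
      have hr : ((1 : ℝ) / 2) ^ l = 4 * (1 / 2) ^ (l + 2) := by rw [pow_add]; ring
      have hr1 : ((1 : ℝ) / 2) ^ (l + 1) = 2 * (1 / 2) ^ (l + 2) := by rw [pow_add, pow_add]; ring
      have hr2 : ((1 : ℝ) / 2) ^ (l + 1 + 1) = (1 / 2) ^ (l + 2) := by ring
      push_cast at hq ⊢
      rw [hr1] at hq
      rw [hr, hr1, hr2]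
      set r : ℝ := (1 / 2) ^ (l + 2) with hrdef
      have hrp : 0 < r := by positivity
      set L : ℝ := (l : ℝ) with hL
      have e1 : (2 : ℝ)⁻¹ * ((L + 1 + 1) * ((1 - r) / (L + 1 + 1))) = (1 - r) / 2 := by
        field_simp
      rw [e1]
      have e2 : c * ((1 - 2 * r) / (L + 1)) - ((1 - r) / 2 +
        2⁻¹ * ((2 * c - (L + 2)) * ((1 - 4 * r) / L)) + ((L + 2) / 2 + 1 / 3 * r - (L + 2) / 2)) =
        ((L + 1) - c) * ((1 - 4 * r) / L - (1 - 2 * r) / (L + 1)) + r / 6 := by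
        field_simp
        ring
      have e3 : 0 ≤ (1 - 4 * r) / L - (1 - 2 * r) / (L + 1) := by
        rw [sub_nonneg, div_le_div_iff₀ (by linarith) (by linarith)]
        nlinarith
      have e4 : 0 ≤ ((L + 1) - c) * ((1 - 4 * r) / L - (1 - 2 * r) / (L + 1)) :=
        mul_nonneg (by linarith) e3
      linarith

/-- Away from a set of measure at most `1/k`, each `v ∈ (0,1)` is attained exactly once by
`T(x) + k x`. -/
lemma not_one_measure (k : ℕ) (hk : 1 ≤ k) :
    volume {v : ℝ | v ∈ Ioo (0 : ℝ) 1 ∧ cnt k v ≠ 1} ≤ ENNReal.ofReal (1 / k) := by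
  have hk' : (1 : ℝ) ≤ k := by exact_mod_cast hk
  have hsub : {v : ℝ | v ∈ Ioo (0 : ℝ) 1 ∧ cnt k v ≠ 1} ⊆ ⋃ m : ℕ, (Bad k m ∩ Ioo 0 1) := by
    rintro v ⟨hv, hne⟩
    -- existence of a solution
    have hcont : ContinuousOn (fun x : ℝ => takagi x + k * x) (Icc 0 1) :=
      (continuous_takagi.add (by fun_prop)).continuousOn
    have hiv := intermediate_value_Icc (zero_le_one (α := ℝ)) hcont
    have hmem : v ∈ Icc (takagi 0 + k * (0 : ℝ)) (takagi 1 + k * (1 : ℝ)) := by
      rw [takagi_zero, takagi_one]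
      constructor
      · linarith [hv.1]
      · linarith [hv.2]
    obtain ⟨x, ⟨hx0, hx1⟩, hx⟩ := hiv hmem
    have hx1' : x < 1 := by
      rcases hx1.lt_or_eq with h | h
      · exact h
      · exfalso
        dsimp only at hx
        rw [h, takagi_one] at hx
        linarith [hv.2]
    have hxs : x ∈ solSet k v := ⟨⟨hx0, hx1'⟩, hx⟩
    have : ∃ y ∈ solSet k v, y ≠ x := by
      by_contra hcon
      push Not at hcon
      apply hne
      unfold cnt
      rw [encard_eq_one]
      exact ⟨x, Set.eq_singleton_iff_unique_mem.2 ⟨hxs, hcon⟩⟩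
    obtain ⟨y, hys, hyx⟩ := this
    -- the digits of x and y differ at some place
    obtain ⟨m, hm⟩ : ∃ m : ℕ, 1 ≤ 2 ^ m * |y - x| := by
      have hpos : 0 < |y - x| := abs_pos.2 (sub_ne_zero.2 hyx)
      obtain ⟨m, hm⟩ := pow_unbounded_of_one_lt (1 / |y - x|) (one_lt_two (α := ℝ))
      refine ⟨m, ?_⟩
      rw [div_lt_iff₀ hpos] at hm
      exact hm.le
    rw [Set.mem_iUnion]
    refine ⟨m, ⟨x, hxs.1, y, hys.1, hxs.2, hys.2, m, le_rfl, ?_⟩, hv⟩
    intro h
    have h1 := Int.abs_sub_lt_one_of_floor_eq_floor h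
    rw [← mul_sub, abs_mul, abs_of_pos (by positivity : (0 : ℝ) < 2 ^ m), abs_sub_comm] at h1
    linarith
  refine (measure_mono hsub).trans ?_
  have hmono : Monotone (fun m : ℕ => Bad k m ∩ Ioo (0 : ℝ) 1) :=
    fun a b hab => Set.inter_subset_inter_left _ (Bad_mono _ hab)
  rw [hmono.measure_iUnion]
  apply iSup_le
  intro m
  refine (bad_bound m k hk 1 zero_le_one hk').trans ?_
  apply ENNReal.ofReal_le_ofReal
  unfold bd
  rw [one_mul]
  have : (0 : ℝ) < (1 / 2) ^ k := by positivity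
  gcongr
  linarith

/-! ### The induction -/

/-- `2m` is a value of `F` on a subset of `(0,1)` of positive measure. -/
def PosF (m : ℕ) : Prop := 0 < volume {z : ℝ | z ∈ Ioo (0 : ℝ) 1 ∧ F z = 2 * m}

/-- `2n` is a value of the cardinality on a subset of `(1/6,2/3]` of positive measure. -/
def PosC (n : ℕ) : Prop := 0 < volume {y : ℝ | y ∈ Ioc (1 / 6 : ℝ) (2 / 3) ∧ cnt 0 y = 2 * n}

lemma PosC.posF {n : ℕ} (h : PosC n) : PosF n := by
  unfold PosF
  refine lt_of_lt_of_le h (measure_mono ?_)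
  rintro y ⟨⟨h0, h1⟩, hy⟩
  exact ⟨⟨by linarith, by linarith⟩, by rw [F_eq_cnt h0, hy]⟩

lemma PosF.double {m : ℕ} (hm : 1 ≤ m) (h : PosF m) : PosC (2 * m) := by
  unfold PosC
  refine pos_of_affine (1 / 4) (1 / 2) (by norm_num) ?_ h
  rintro z ⟨⟨h0, h1⟩, hz⟩
  have hz2 : z ≤ 2 / 3 := by
    by_contra hcon
    push Not at hcon
    rw [F_eq_zero hcon] at hz
    have : (2 * m : ℕ∞) ≠ 0 := by
      have : m ≠ 0 := by omega
      simp [this]
    exact this hz.symm
  refine ⟨⟨by linarith, ?_⟩, ?_⟩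
  · linarith
  · rw [cnt_zero_eq (by intro h; linarith) (by intro h; linarith)]
    rw [show 2 * (1 / 4 * z + 1 / 2) = 1 + z / 2 by ring]
    change 2 * F z = _
    rw [hz]
    push_cast
    rfl

/-- A finite level value is attained off small sets. -/
lemma exists_large {A : Set ℝ} (hA : A ⊆ Ioo 0 1) (hpos : 0 < volume A) :
    ∃ k : ℕ, 1 ≤ k ∧ 0 < volume {z : ℝ | z ∈ A ∧ cnt ((4 * k + 2 : ℕ) : ℝ) z = 1} := by
  obtain ⟨k, hk⟩ : ∃ k : ℕ, ENNReal.ofReal (1 / ((4 * (k + 1) + 2 : ℕ) : ℝ)) < volume A := by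
    have hlim : Filter.Tendsto (fun k : ℕ => ENNReal.ofReal (1 / ((4 * (k + 1) + 2 : ℕ) : ℝ)))
        Filter.atTop (nhds (ENNReal.ofReal 0)) := by
      apply ENNReal.tendsto_ofReal
      have h1 : Filter.Tendsto (fun n : ℕ => 1 / (n : ℝ)) Filter.atTop (nhds 0) :=
        tendsto_one_div_atTop_nhds_zero_nat
      have h2 : Filter.Tendsto (fun k : ℕ => 4 * (k + 1) + 2) Filter.atTop Filter.atTop :=
        Filter.tendsto_atTop_mono (fun k => by simp only [id]; omega) Filter.tendsto_id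
      exact h1.comp h2
    rw [ENNReal.ofReal_zero] at hlim
    exact ((tendsto_order.1 hlim).2 _ hpos).exists
  refine ⟨k + 1, by omega, ?_⟩
  by_contra hcon
  have h0 : volume {z : ℝ | z ∈ A ∧ cnt ((4 * (k + 1) + 2 : ℕ) : ℝ) z = 1} = 0 := by
    simpa using hcon
  have hsub : A ⊆ {z : ℝ | z ∈ A ∧ cnt ((4 * (k + 1) + 2 : ℕ) : ℝ) z = 1} ∪
      {v : ℝ | v ∈ Ioo (0 : ℝ) 1 ∧ cnt ((4 * (k + 1) + 2 : ℕ) : ℝ) v ≠ 1} := by
    intro z hz
    by_cases h : cnt ((4 * (k + 1) + 2 : ℕ) : ℝ) z = 1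
    · exact Or.inl ⟨hz, h⟩
    · exact Or.inr ⟨hA hz, h⟩
  have h1 := (measure_mono (μ := volume) hsub).trans (measure_union_le _ _)
  rw [h0, zero_add] at h1
  have h2 := not_one_measure (4 * (k + 1) + 2) (by omega)
  exact absurd (lt_of_lt_of_le hk (h1.trans h2)) (lt_irrefl _)

/-- The value of the counting function at the special positions. -/
lemma cnt_at_position {k : ℕ} (hk : 1 ≤ k) {b : ℝ}
    (hb : ∀ u : ℝ, 0 ≤ u → u < 2 * k → cnt 0 ((1 / 16) ^ k * u + b) =
        2 * (cnt (2 * k + 2) (2 * k + 2 + u) + cnt (2 * k) u)) {z : ℝ} (h0 : 0 < z) (h1 : z < 1) :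
    cnt 0 ((1 / 16) ^ k * ((1 / 2) ^ (2 * k + 2)) * z + b) =
      2 * (F z + cnt ((4 * k + 2 : ℕ) : ℝ) z) := by
  have hk' : (1 : ℝ) ≤ k := by exact_mod_cast hk
  have hp : (0 : ℝ) < (1 / 2) ^ (2 * k + 2) := by positivity
  have hp1 : ((1 : ℝ) / 2) ^ (2 * k + 2) ≤ 1 := pow_le_one₀ (by norm_num) (by norm_num)
  have hpp : (2 : ℝ) ^ (2 * k + 2) * (1 / 2) ^ (2 * k + 2) = 1 := by
    rw [← mul_pow]; norm_num
  rw [mul_assoc, hb ((1 / 2) ^ (2 * k + 2) * z) (by positivity) (by nlinarith)]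
  congr 2
  · have h := cnt_top (k := 2 * k + 2) (by omega) ((1 / 2) ^ (2 * k + 2) * z) (by positivity)
    push_cast at h
    rw [h, ← mul_assoc, hpp, one_mul]
  · have h := cnt_up (s := 2 * k) (by linarith) (2 * k + 2) ((1 / 2) ^ (2 * k + 2) * z)
      (by rw [← mul_assoc, hpp, one_mul]; exact h1)
    rw [h, ← mul_assoc, hpp, one_mul]
    congr 1
    push_cast; ring

lemma PosF.double_add_one {m : ℕ} (h : PosF m) : PosC (2 * m + 1) := by
  obtain ⟨k, hk, hpos⟩ := exists_large (A := {z : ℝ | z ∈ Ioo (0 : ℝ) 1 ∧ F z = 2 * m})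
    (fun z hz => hz.1) h
  obtain ⟨b, hb1, hb2, hb⟩ := exists_position k hk
  have hk' : (1 : ℝ) ≤ k := by exact_mod_cast hk
  unfold PosC
  refine pos_of_affine ((1 / 16) ^ k * ((1 / 2) ^ (2 * k + 2))) b (by positivity) ?_ hpos
  rintro z ⟨⟨⟨h0, h1⟩, hz⟩, hc⟩
  have hp : (0 : ℝ) < (1 / 16) ^ k := by positivity
  have hq : (0 : ℝ) < (1 / 2) ^ (2 * k + 2) := by positivity
  have hq1 : ((1 : ℝ) / 2) ^ (2 * k + 2) ≤ 1 := pow_le_one₀ (by norm_num) (by norm_num)
  have hle : (1 / 16 : ℝ) ^ k * ((1 / 2) ^ (2 * k + 2)) * z ≤ (1 / 16) ^ k * (2 * k) := by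
    rw [mul_assoc]
    apply mul_le_mul_of_nonneg_left _ hp.le
    nlinarith
  have hge : 0 < (1 / 16 : ℝ) ^ k * ((1 / 2) ^ (2 * k + 2)) * z := by positivity
  refine ⟨⟨by linarith, by linarith⟩, ?_⟩
  rw [cnt_at_position hk hb h0 h1, hz, hc]
  push_cast
  rfl

/-- The base case. -/
lemma posC_one : PosC 1 := by
  have hA : 0 < volume (Ioo (2 / 3 : ℝ) 1) := by
    rw [Real.volume_Ioo]
    simp
    norm_num
  obtain ⟨k, hk, hpos⟩ := exists_large (A := Ioo (2 / 3 : ℝ) 1)
    (fun z hz => ⟨by linarith [hz.1], hz.2⟩) hA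
  obtain ⟨b, hb1, hb2, hb⟩ := exists_position k hk
  have hk' : (1 : ℝ) ≤ k := by exact_mod_cast hk
  unfold PosC
  refine pos_of_affine ((1 / 16) ^ k * ((1 / 2) ^ (2 * k + 2))) b (by positivity) ?_ hpos
  rintro z ⟨⟨h0, h1⟩, hc⟩
  have hp : (0 : ℝ) < (1 / 16) ^ k := by positivity
  have hq : (0 : ℝ) < (1 / 2) ^ (2 * k + 2) := by positivity
  have hq1 : ((1 : ℝ) / 2) ^ (2 * k + 2) ≤ 1 := pow_le_one₀ (by norm_num) (by norm_num)
  have hz0 : 0 < z := by linarith
  have hle : (1 / 16 : ℝ) ^ k * ((1 / 2) ^ (2 * k + 2)) * z ≤ (1 / 16) ^ k * (2 * k) := by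
    rw [mul_assoc]
    apply mul_le_mul_of_nonneg_left _ hp.le
    nlinarith
  have hge : 0 < (1 / 16 : ℝ) ^ k * ((1 / 2) ^ (2 * k + 2)) * z := by positivity
  refine ⟨⟨by linarith, by linarith⟩, ?_⟩
  rw [cnt_at_position hk hb hz0 h1, F_eq_zero h0, hc]
  push_cast
  rfl

lemma posC_all : ∀ n : ℕ, 1 ≤ n → PosC n := by
  intro n
  induction n using Nat.strong_induction_on with
  | _ n ih =>
    intro hn
    rcases Nat.even_or_odd' n with ⟨m, rfl | rfl⟩
    · exact (ih m (by omega) (by omega)).posF.double (by omega)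
    · rcases Nat.eq_zero_or_pos m with rfl | hm
      · exact posC_one
      · exact (ih m (by omega) hm).posF.double_add_one

/-- The sets `S_{2n}` are Lebesgue (indeed Borel) measurable. -/
lemma measurableSet_S2 (n : ℕ) : MeasurableSet (S2 n) := by
  have hk : ∀ k : ℕ, MeasurableSet {y : ℝ | (k : ℕ∞) ≤ (levelSet y).encard} := by
    intro k
    have e : {y : ℝ | (k : ℕ∞) ≤ (levelSet y).encard} =
        ⋃ m : ℕ, ⋃ J : {J : Finset ℤ // J.card = k}, ⋂ j ∈ J.1,
          takagi '' (Icc (0 : ℝ) 1 ∩ {x : ℝ | ⌊2 ^ m * x⌋ = j}) := by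
      ext y
      simp only [Set.mem_ofPred_eq, Set.mem_iUnion, Set.mem_iInter]
      constructor
      · intro h
        obtain ⟨t, ht, htk⟩ := Set.exists_subset_encard_eq h
        have hfin : t.Finite := Set.finite_of_encard_eq_coe htk
        -- a scale separating the points of t
        obtain ⟨m, hm⟩ : ∃ m : ℕ, ∀ x ∈ t, ∀ x' ∈ t, x ≠ x' → ⌊(2 : ℝ) ^ m * x⌋ ≠ ⌊2 ^ m * x'⌋ := by
          have hev : ∀ x ∈ t, ∀ x' ∈ t, ∀ᶠ m : ℕ in Filter.atTop,
              (x ≠ x' → ⌊(2 : ℝ) ^ m * x⌋ ≠ ⌊2 ^ m * x'⌋) := by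
            intro x _ x' _
            by_cases hxx : x = x'
            · exact Filter.Eventually.of_forall (fun m h => absurd hxx h)
            · have hpos : 0 < |x - x'| := abs_pos.2 (sub_ne_zero.2 hxx)
              have hlim : Filter.Tendsto (fun m : ℕ => (2 : ℝ) ^ m * |x - x'|) Filter.atTop
                  Filter.atTop :=
                (tendsto_pow_atTop_atTop_of_one_lt (one_lt_two (α := ℝ))).atTop_mul_const hpos
              filter_upwards [hlim.eventually_ge_atTop 1] with m hm _ h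
              have h1 := Int.abs_sub_lt_one_of_floor_eq_floor h
              rw [← mul_sub, abs_mul, abs_of_pos (by positivity : (0 : ℝ) < 2 ^ m)] at h1
              linarith
          have h2 : ∀ᶠ m : ℕ in Filter.atTop, ∀ x ∈ t, ∀ x' ∈ t,
              (x ≠ x' → ⌊(2 : ℝ) ^ m * x⌋ ≠ ⌊2 ^ m * x'⌋) := by
            rw [Filter.eventually_all_finite hfin]
            intro x hx
            rw [Filter.eventually_all_finite hfin]
            intro x' hx'
            exact hev x hx x' hx'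
          exact h2.exists
        have hinj : Set.InjOn (fun x : ℝ => ⌊(2 : ℝ) ^ m * x⌋) t := by
          intro x hx x' hx' h
          by_contra hne
          exact hm x hx x' hx' hne h
        refine ⟨m, ⟨(hfin.toFinset).image (fun x : ℝ => ⌊(2 : ℝ) ^ m * x⌋), ?_⟩, ?_⟩
        · rw [Finset.card_image_of_injOn (by simpa using hinj)]
          rw [hfin.encard_eq_coe_toFinset_card] at htk
          exact_mod_cast htk
        · intro j hj
          simp only [Finset.mem_image, Set.Finite.mem_toFinset] at hj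
          obtain ⟨x, hx, rfl⟩ := hj
          exact ⟨x, ⟨(ht hx).1, rfl⟩, (ht hx).2⟩
      · rintro ⟨m, ⟨J, hJ⟩, h⟩
        choose! g hg using h
        have hinj : Set.InjOn g (J : Set ℤ) := by
          intro a ha b hb hab
          have h1 := (hg a ha).1.2
          have h2 := (hg b hb).1.2
          rw [hab] at h1
          simp only [Set.mem_ofPred_eq] at h1 h2
          rw [← h1, h2]
        have hsub : g '' (J : Set ℤ) ⊆ levelSet y := by
          rintro x ⟨j, hj, rfl⟩
          exact ⟨(hg j hj).1.1, (hg j hj).2⟩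
        have h1 := Set.encard_le_encard hsub
        rw [hinj.encard_image, Set.encard_coe_eq_coe_finsetCard, hJ] at h1
        exact h1
    rw [e]
    refine MeasurableSet.iUnion fun m => MeasurableSet.iUnion fun J => ?_
    refine Finset.measurableSet_biInter _ fun j _ => ?_
    have hoc : (Icc (0 : ℝ) 1 ∩ {x : ℝ | ⌊2 ^ m * x⌋ = j}).OrdConnected := by
      refine ordConnected_Icc.inter ⟨?_⟩
      intro a ha b hb x hx
      simp only [Set.mem_ofPred_eq] at ha hb ⊢
      have h1 : ⌊(2 : ℝ) ^ m * a⌋ ≤ ⌊2 ^ m * x⌋ := Int.floor_le_floor (by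
        apply mul_le_mul_of_nonneg_left hx.1; positivity)
      have h2 : ⌊(2 : ℝ) ^ m * x⌋ ≤ ⌊2 ^ m * b⌋ := Int.floor_le_floor (by
        apply mul_le_mul_of_nonneg_left hx.2; positivity)
      omega
    have hpc : IsPreconnected (takagi '' (Icc (0 : ℝ) 1 ∩ {x : ℝ | ⌊2 ^ m * x⌋ = j})) :=
      hoc.isPreconnected.image _ continuous_takagi.continuousOn
    exact hpc.ordConnected.measurableSet
  have e : S2 n = Set.Icc (0 : ℝ) (2 / 3) ∩ ({y : ℝ | ((2 * n : ℕ) : ℕ∞) ≤ (levelSet y).encard} \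
      {y : ℝ | ((2 * n + 1 : ℕ) : ℕ∞) ≤ (levelSet y).encard}) := by
    ext y
    simp only [S2, Set.mem_ofPred_eq, Set.mem_inter_iff, Set.mem_sdiff, not_le]
    refine and_congr_right fun _ => ?_
    push_cast
    constructor
    · intro h
      rw [h]
      refine ⟨le_rfl, ?_⟩
      have : ((2 * n : ℕ) : ℕ∞) < ((2 * n + 1 : ℕ) : ℕ∞) := by exact_mod_cast Nat.lt_succ_self _
      exact_mod_cast this
    · rintro ⟨h1, h2⟩
      apply le_antisymm _ h1
      exact Order.le_of_lt_add_one h2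
  rw [e]
  exact measurableSet_Icc.inter ((hk _).diff (hk _))

/-- **Every even cardinality occurs with positive probability**: for every `n ≥ 1` the set
`S_{2n}` of ordinates `y ∈ [0, 2/3]` such that the level set `L(y)` of the Takagi function has
exactly `2n` elements is Borel measurable and has positive Lebesgue measure. -/
theorem result (n : ℕ) (hn : 1 ≤ n) : MeasurableSet (S2 n) ∧ 0 < volume (S2 n) := by
  refine ⟨measurableSet_S2 n, lt_of_lt_of_le (posC_all n hn) (measure_mono ?_)⟩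
  rintro y ⟨⟨h0, h1⟩, hy⟩
  refine ⟨⟨by linarith, h1⟩, ?_⟩
  rw [levelSet_encard (by linarith), hy]

end Pool.Agent.Results.MP_f54a22_an.TakagiPositive
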